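import Pool.Agent.H408Z.Fac.F

/-!
# No finite-to-one map from the permutations of an infinite set of reals to the set

We show that in every (possibly nonstandard) model of Zermelo set theory, in particular in every
model of ZF, no infinite set `a` that injects into the power set of `ω` has a finite-to-one
function from `Sym(a)` to `a`. By the completeness theorem, ZF proves the negated form of the
question.

Outline. Let `g : Sym(a) → a` be finite-to-one, with `a` an infinite set of reals. Then `a × a` is
linearly ordered, and transpositions and three-cycles composed with `g` give a finite-to-one map
`a × a → ω × a`, which the linear order turns into an injection `j`. If `a` is Dedekind finite,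
the analysis of the closures of pairs of points under `j` gives either an increasing exhaustion
that makes `a` Dedekind infinite, or an injection of the power set of `ω` into `Sym(a)`; then `g`
and the lexicographic order inject the power set of `ω` into `ω × a`, and a diagonal argument
makes `a` Dedekind infinite. So `a` is Dedekind infinite. In that case a diagonal permutation
extends every system of disjoint enumerated infinite blocks in `a` by a new block, canonically,
and the Bourbaki-Witt fixed point theorem gives a contradiction.
-/

namespace Pool.Agent.Results.MP_e2756a_lc.ANoFinToOne

open Pool.Agent.Helper672.Plain Pool.Agent.H408Z.Fac.Card

universe u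

/-- In every model of Zermelo set theory (in particular in every model of ZF): if `w` is `ω`, `q`
is the power set of `ω`, `a` is infinite with `|a| ≤ |q|` and `s` is the set of all bijections of
`a`, then there is no finite-to-one function from `s` to `a`. -/
theorem result (M : Type u) [LSet.Structure M] [Zermelo M] (w q a s : M) (hw : IsOmega w)
    (hq : IsPowerSet q w) (ha : IsInfinite w a) (haq : CardLe a q) (hs : IsSym s a) :
    ¬ ∃ g, IsFinToOne w g s a :=
  fun ⟨_, hg⟩ => Pool.Agent.H408Z.Fac.main_fto hw hq hs ha haq hg

end Pool.Agent.Results.MP_e2756a_lc.ANoFinToOne
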